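import Pool.Agent.Lib.MP_c7af3c_ag.LINES.H19.Badl2
import Pool.Agent.Lib.MP_c7af3c_ag.EDGE.Base

/-!
# MP_c7af3c_ag, project EDGE: the dichotomy in the borderline case n - c = 2 e
-/

set_option autoImplicit false

namespace Pool.Agent.Edge.H19

open MvPolynomial WithZero Pool.Agent.Gen Pool.Agent.Sharp Pool.Agent.Lines.H75
open Pool.Agent.Lines Pool.Agent.Lines.H19

section

variable {L : Type} [Field L] {n c : ℕ} {d : Fin c → ℕ} {D : DSys L n c d}
  {x : Fin (n + 1) → L} {j0 : Fin (n + 1)}

/-- Module BADL, borderline case. -/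
theorem badl3 (hj0 : x j0 = 1) (h0 : ∀ m, eval x (D.F m) = 0)
    (e : ℕ) (he : 1 ≤ e) (h1 : 2 * n + 1 ≤ c + ∑ m, d m + e)
    (h2 : 2 * e + c ≤ n) (S : PlaceSys L) (hS : S.IsProd) (B : S.V → ℕ)
    (hB : BD S D B) :
    S.ht x ≤ (2 * n + 2) * tot S B ∨
      (∃ y : Fin (n + 1) → L, LinearIndependent L ![x, y] ∧ hL S x y ≤ (2 * n + 2) * tot S B) ∨
      (∃ y, LinearIndependent L ![x, y] ∧ y j0 = 0 ∧
        Module.finrank L (E1 D x y) ≤ e) ∨
      (W0 D x ∧ ∃ (A : Fin e → TP L n c) (i i' : Fin e → Fin (n + 1)), (∀ j, IT d (A j)) ∧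
        LinearIndependent L (colE D x j0 A i i')) := by
  classical
  have hx : x ≠ 0 := fun h => by rw [h] at hj0; exact zero_ne_one hj0
  have hx1 : LinearIndependent L (fun _ : Unit => x) := by
    rw [linearIndependent_unique_iff]
    exact hx
  obtain ⟨w, W, hW, hWs⟩ := ext_fam (fun _ : Unit => x) hx1
    (fun e : Fin (n + 1) × Fin (n + 1) => WT D x e.1 e.2)
  have hW' : LinearIndependent L (Sum.elim (fun _ : Unit => x)
      fun a => WT D x (W a).1 (W a).2) := hW
  have hT : T0 D x ≤ Submodule.span L (Set.range (Sum.elim (fun _ : Unit => x)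
      fun a => WT D x (W a).1 (W a).2)) := by
    unfold T0
    rw [Submodule.span_le, Set.insert_subset_iff]
    refine ⟨Submodule.subset_span ⟨Sum.inl (), rfl⟩, ?_⟩
    rintro _ ⟨e, rfl⟩
    exact hWs e
  have hTr : Module.finrank L (T0 D x) = 1 + w := by
    have h3 := finrank_span_eq_card hW'
    have h4 : T0 D x = Submodule.span L (Set.range (Sum.elim (fun _ : Unit => x)
      fun a => WT D x (W a).1 (W a).2)) := by
      refine le_antisymm hT ?_
      unfold T0
      refine Submodule.span_mono ?_
      rintro _ ⟨(_ | a), rfl⟩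
      · exact Set.mem_insert _ _
      · exact Set.mem_insert_of_mem _ ⟨W a, rfl⟩
    rw [h4, h3, Fintype.card_sum, Fintype.card_fin, Fintype.card_unit]
  have hli0 : LinearIndependent L (Sum.elim (Sum.elim (fun _ : Unit => x)
      fun a => WT D x (W a).1 (W a).2)
      (Sum.elim (fun j => VT D x (mulT ((Fin.elim0 : Fin 0 → Fin c →
        MvPolynomial (Fin (n + 1)) L) j) (lf x j0 ((Fin.elim0 : Fin 0 → Fin (n + 1)) j))))
        fun j => VT D x (mulT ((Fin.elim0 : Fin 0 → Fin c →
        MvPolynomial (Fin (n + 1)) L) j) (lf x j0 ((Fin.elim0 : Fin 0 → Fin (n + 1)) j))))) := by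
    have h3 := hW'.comp (Sum.elim id (Sum.elim (Fin.elim0 : Fin 0 → Unit ⊕ Fin w)
      (Fin.elim0 : Fin 0 → Unit ⊕ Fin w))) (by
        rintro (a | (j | j)) (b | (j' | j')) h
        · exact congrArg Sum.inl h
        all_goals first | exact j.elim0 | exact j'.elim0)
    convert h3 using 1
    funext a
    rcases a with (a | (j | j))
    · rfl
    · exact j.elim0
    · exact j.elim0
  by_cases hwe : e + 1 ≤ w
  · -- many `W`
    left
    exact hpair' hj0 h0 S hS B hB W (P := 0) Fin.elim0 (fun j => j.elim0) Fin.elim0 Fin.elim0 hT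
      hli0 (by omega)
  push Not at hwe
  by_cases hwe2 : w = e
  · -- a line of bounded height, no pairs needed
    right; left
    exact hpairL' hj0 h0 S hS B hB W (P := 0) Fin.elim0 (fun j => j.elim0) Fin.elim0 Fin.elim0 hT
      hli0 (by omega) (by omega)
  have he1 : e - w - 1 + 1 = e - w := by omega
  by_cases hP : Sharp.LA.HasPairs (fun i : Fin (n + 1) => (Pi.single i 1 : Fin (n + 1) → L))
      (SA D x j0) (T0 D x) (e - w - 1 + 1)
  · -- many pairs
    rw [he1] at hP
    obtain ⟨φ, i, i', hφ, hr⟩ := hP
    choose A hA hφA using hφ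
    have hLI : LinearIndependent L (Sum.elim (Sum.elim (fun _ : Unit => x)
      fun a => WT D x (W a).1 (W a).2)
      (Sum.elim (fun j => VT D x (mulT (A j) (lf x j0 (i j))))
        fun j => VT D x (mulT (A j) (lf x j0 (i' j))))) := by
      rw [linearIndependent_iff_card_le_finrank_span]
      simp only [Fintype.card_sum, Fintype.card_fin, Fintype.card_unit]
      rw [hTr] at hr
      have h3 : T0 D x ⊔ ⨆ j, Sharp.LA.pl (fun i : Fin (n + 1) =>
          (Pi.single i 1 : Fin (n + 1) → L))
          (φ j) (i j) (i' j) ≤ Submodule.span L (Set.range (Sum.elim (Sum.elim (fun _ : Unit => x)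
        fun a => WT D x (W a).1 (W a).2)
        (Sum.elim (fun j => VT D x (mulT (A j) (lf x j0 (i j))))
          fun j => VT D x (mulT (A j) (lf x j0 (i' j)))))) := by
        refine sup_le (hT.trans (Submodule.span_mono ?_)) (iSup_le fun j => ?_)
        · rintro _ ⟨a, rfl⟩
          exact ⟨Sum.inl a, rfl⟩
        · unfold Sharp.LA.pl
          rw [Submodule.span_le]
          rintro u (rfl | rfl)
          · refine Submodule.subset_span ⟨Sum.inr (Sum.inl j), ?_⟩
            rw [hφA j, phiA_single]
            rfl
          · refine Submodule.subset_span ⟨Sum.inr (Sum.inr j), ?_⟩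
            rw [hφA j, phiA_single]
            rfl
      have h4 := Submodule.finrank_mono h3
      rw [hr] at h4
      refine le_trans (by omega) h4
    by_cases hw0 : w = 0
    · -- the new case
      right; right; right
      subst hw0
      refine ⟨fun p q => ?_, ?_⟩
      · have h3 : WT D x p q ∈ T0 D x :=
          Submodule.subset_span (Set.mem_insert_of_mem _ ⟨(p, q), rfl⟩)
        refine (hT.trans (Submodule.span_le.2 ?_)) h3
        rintro _ ⟨(_ | a), rfl⟩
        · exact Submodule.mem_span_singleton_self x
        · exact a.elim0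
      · refine ⟨A, i, i', hA, ?_⟩
        have h4 := hLI.comp (Sum.elim (fun u : Unit => Sum.inl (Sum.inl u))
          (fun s : Fin e ⊕ Fin e => Sum.inr s) :
            Unit ⊕ (Fin e ⊕ Fin e) → (Unit ⊕ Fin 0) ⊕ (Fin e ⊕ Fin e)) (by
          rintro (a | a) (b | b) h
          · rfl
          · exact absurd h (by simp)
          · exact absurd h (by simp)
          · exact congrArg Sum.inr (by simpa using h))
        convert h4 using 1
        funext a
        rcases a with (a | (a | a)) <;> rfl
    · right; left
      exact hpairL' hj0 h0 S hS B hB W A hA i i' hT hLI (by omega) (by omega)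
  · -- a line with small variation
    right; right; left
    have hKF : KF D x ≤ T0 D x ⊔ Sharp.LA.Im (SA D x j0) ⊤ := by
      refine KF_le hj0 le_sup_left fun A hA i => ?_
      refine Submodule.mem_sup_right ?_
      rw [← phiA_single]
      exact Sharp.LA.mem_Im (SA D x j0) ⟨A, hA, rfl⟩ Submodule.mem_top
    have h3 := Submodule.finrank_mono hKF
    have h4 := finrank_KF D x hj0 h0
    obtain ⟨f, hf, hf1, hf2⟩ := Sharp.LA.lemAll (SA D x j0) span_basis (by
      rintro _ ⟨A, hA, rfl⟩ _ ⟨A', hA', rfl⟩
      exact ⟨A + A', hA.add hA', phiA_add D x j0 A A'⟩) (e - w - 1) (T0 D x) (by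
        rw [hTr]; omega) hP
    rw [hTr] at hf2
    have hyj : f (Pi.single j0 1) = 0 := by
      refine hf1 _ ?_
      rintro _ ⟨A, hA, rfl⟩
      have h5 : Sharp.mulT A (Sharp.lf x j0 j0) = 0 := by
        funext m
        unfold Sharp.mulT Sharp.lf
        rw [hj0, C_1, one_mul, sub_self, mul_zero]
        rfl
      rw [phiA_single, h5, map_zero]
      exact Submodule.zero_mem _
    set y : Fin (n + 1) → L := fun i => f (Pi.single i 1) with hy
    have hyj' : y j0 = 0 := hyj
    have hy0 : y ≠ 0 := by
      intro h
      apply hf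
      apply LinearMap.ext
      intro u
      rw [f_eq f u, LinearMap.zero_apply]
      refine Finset.sum_eq_zero fun i _ => ?_
      have : y i = 0 := by rw [h]; rfl
      rw [hy] at this
      simp only at this
      rw [this, mul_zero]
    refine ⟨y, ?_, hyj, ?_⟩
    · rw [LinearIndependent.pair_iff]
      intro a b hab
      have h5 := congrFun hab j0
      rw [Pi.add_apply, Pi.smul_apply, Pi.smul_apply, hj0, hyj', smul_zero, add_zero,
        Pi.zero_apply, smul_eq_mul, mul_one] at h5
      rw [h5, zero_smul, zero_add] at hab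
      exact ⟨h5, (smul_eq_zero.1 hab).resolve_right hy0⟩
    · refine (Submodule.finrank_mono (?_ : E1 D x y ≤ T0 D x ⊔
        Sharp.LA.Im (SA D x j0) (LinearMap.ker f))).trans (by omega)
      unfold E1
      rw [Submodule.span_le]
      rintro u ((hu | ⟨p, q, rfl⟩) | ⟨G, hG, hG0, rfl⟩)
      · rw [Set.mem_singleton_iff] at hu
        rw [hu]
        exact Submodule.mem_sup_left (Submodule.subset_span (Set.mem_insert _ _))
      · exact Submodule.mem_sup_left (Submodule.subset_span
          (Set.mem_insert_of_mem _ ⟨(p, q), rfl⟩))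
      · refine Submodule.mem_sup_right ?_
        have hG1 : G = ∑ m, (Pi.single m (G m) : Fin c → MvPolynomial (Fin (n + 1)) L) := by
          funext m'
          rw [Finset.sum_apply, Finset.sum_eq_single m', Pi.single_eq_same]
          · intro m _ hm
            rw [Pi.single_eq_of_ne (Ne.symm hm)]
          · intro h; exact absurd (Finset.mem_univ _) h
        rw [hG1, map_sum]
        refine Submodule.sum_mem _ fun m _ => ?_
        obtain ⟨i1, hi1⟩ : ∃ i, y i ≠ 0 := Function.ne_iff.1 hy0
        have hpl : Sharp.plu x y j0 i1 ≠ 0 := by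
          unfold Sharp.plu
          rw [hj0, hyj', mul_zero, sub_zero, one_mul]
          exact hi1
        have h6 := mem_NN ⟨j0, i1, hpl⟩ (hG m) (hG0 m)
        unfold NN at h6
        have h7 : ∀ P ∈ Submodule.span L {P | ∃ (J : Fin (n + 1) →₀ ℕ) (i j k : Fin (n + 1)),
            J.degree + 1 = d m ∧ P = monomial J 1 * Sharp.hT x y i j k},
            Sharp.VT D x (Pi.single m P) ∈ Sharp.LA.Im (SA D x j0) (LinearMap.ker f) := by
          intro P hP
          induction hP using Submodule.span_induction with
          | mem P hP =>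
            obtain ⟨J, i, j, k, hJ, rfl⟩ := hP
            set u : Fin (n + 1) → L := Sharp.plu x y i j • Pi.single k 1 -
              Sharp.plu x y i k • Pi.single j 1 + Sharp.plu x y j k • Pi.single i 1 with hu
            have h8 : lfl x j0 u = Sharp.hT x y i j k := by
              rw [hu, map_add, map_sub, map_smul, map_smul, map_smul, lfl_single, lfl_single,
                lfl_single]
              unfold Sharp.hT Sharp.lf Sharp.plu
              simp only [smul_eq_C_mul, map_sub, map_mul]
              ring
            have h9 : u ∈ LinearMap.ker f := by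
              rw [LinearMap.mem_ker, hu, map_add, map_sub, map_smul, map_smul, map_smul]
              change Sharp.plu x y i j * y k - Sharp.plu x y i k * y j +
                Sharp.plu x y j k * y i = 0
              unfold Sharp.plu
              ring
            have h10 : Sharp.VT D x (Pi.single m (monomial J 1 * Sharp.hT x y i j k)) =
                phiA D x j0 (Pi.single m (monomial J 1)) u := by
              rw [phiA_apply, h8]
              congr 1
              funext m'
              unfold Sharp.mulT
              by_cases h : m' = m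
              · subst h
                rw [Pi.single_eq_same, Pi.single_eq_same]
              · rw [Pi.single_eq_of_ne h, Pi.single_eq_of_ne h, zero_mul]
            rw [h10]
            exact Sharp.LA.mem_Im (SA D x j0) ⟨_, IT.single hJ, rfl⟩ h9
          | zero => rw [Pi.single_zero, map_zero]; exact Submodule.zero_mem _
          | add P Q _ _ h1 h2 => rw [Pi.single_add, map_add]; exact Submodule.add_mem _ h1 h2
          | smul a P _ h1 => rw [Pi.single_smul, map_smul]; exact Submodule.smul_mem _ _ h1
        exact h7 _ h6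

end

end Pool.Agent.Edge.H19
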