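import Pool.Agent.Lib.MP_c7af3c_ag.EDGE.Base

/-!
# MP_c7af3c_ag, project EDGE: pairs from sums of two monomials
-/

set_option autoImplicit false
set_option linter.unusedSectionVars false

namespace Pool.Agent.Edge.H19

open MvPolynomial WithZero Pool.Agent.Gen Pool.Agent.Sharp Pool.Agent.Lines.H75

section detA

variable {L : Type} [Field L] {n : ℕ} {κ : Type} [Fintype κ] [DecidableEq κ]

/-- the determinant of a family of vectors indexed by `κ` as an alternating form -/
noncomputable def detA (ε : κ ≃ Fin (n + 1)) : (Fin (n + 1) → L) [⋀^κ]→ₗ[L] L :=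
  (Matrix.detRowAlternating (n := κ) (R := L)).compLinearMap (LinearMap.funLeft L L ε)

theorem detA_apply (ε : κ ≃ Fin (n + 1)) (K : κ → Fin (n + 1) → L) :
    detA ε K = Matrix.det (Matrix.of fun a k => K k (ε a)) := by
  rw [← Matrix.det_transpose]
  rfl

end detA

section

variable {L : Type} [Field L] {n c : ℕ} {d : Fin c → ℕ} (D : DSys L n c d)
  (x : Fin (n + 1) → L) (j0 : Fin (n + 1))

theorem TT_eq {e : ℕ} (ε : (Unit ⊕ (Fin e ⊕ Fin e)) ⊕ Fin c ≃ Fin (n + 1))
    (A : Fin e → TP L n c) (i i' : Fin e → Fin (n + 1)) :
    TT D x j0 ε A i i' = detA ε (colU D x (colE D x j0 A i i') j0) := by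
  rw [detA_apply]
  rfl

/-- `B ↦ V(B l)` -/
noncomputable def VL (l : MvPolynomial (Fin (n + 1)) L) : TP L n c →ₗ[L] (Fin (n + 1) → L) where
  toFun B := VT D x (mulT B l)
  map_add' B B' := by
    rw [← map_add]
    congr 1
    funext m
    simp only [mulT, Pi.add_apply, add_mul]
  map_smul' a B := by
    rw [RingHom.id_apply, ← map_smul]
    congr 1
    funext m
    simp only [mulT, Pi.smul_apply, smul_mul_assoc]

theorem VL_apply (l : MvPolynomial (Fin (n + 1)) L) (B : TP L n c) :
    VL D x l B = VT D x (mulT B l) := rfl

/-- a bilinear form with `b(B,B) = 0` for all sums of two elements of a spanning family -/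
theorem bil_zero [CharZero L] {M ι : Type} [AddCommGroup M] [Module L M] (b : M →ₗ[L] M →ₗ[L] L)
    (u : ι → M) (h : ∀ a a', b (u a + u a') (u a + u a') = 0) {B : M}
    (hB : B ∈ Submodule.span L (Set.range u)) : b B B = 0 := by
  have h0 : ∀ a, b (u a) (u a) = 0 := by
    intro a
    have h1 := h a a
    simp only [map_add, LinearMap.add_apply] at h1
    have h2 : (4 : L) * b (u a) (u a) = 0 := by linear_combination h1
    exact (mul_eq_zero.1 h2).resolve_left (by norm_num)
  have h1 : ∀ a a', b (u a) (u a') + b (u a') (u a) = 0 := by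
    intro a a'
    have h1 := h a a'
    simp only [map_add, LinearMap.add_apply, h0] at h1
    linear_combination h1
  have h2 : ∀ B ∈ Submodule.span L (Set.range u), ∀ B' ∈ Submodule.span L (Set.range u),
      b B B' + b B' B = 0 := by
    intro B hB B' hB'
    induction hB using Submodule.span_induction with
    | mem B hB =>
      obtain ⟨a, rfl⟩ := hB
      induction hB' using Submodule.span_induction with
      | mem B' hB' => obtain ⟨a', rfl⟩ := hB'; exact h1 a a'
      | zero => simp
      | add p q _ _ hp hq =>
        rw [map_add, map_add, LinearMap.add_apply]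
        linear_combination hp + hq
      | smul t p _ hp =>
        rw [map_smul, map_smul, LinearMap.smul_apply, smul_eq_mul, smul_eq_mul]
        linear_combination t * hp
    | zero => simp
    | add p q _ _ hp hq =>
      rw [map_add, map_add, LinearMap.add_apply]
      linear_combination hp + hq
    | smul t p _ hp =>
      rw [map_smul, map_smul, LinearMap.smul_apply, smul_eq_mul, smul_eq_mul]
      linear_combination t * hp
  have h3 := h2 B hB B hB
  have h4 : (2 : L) * b B B = 0 := by linear_combination h3
  exact (mul_eq_zero.1 h4).resolve_left two_ne_zero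

/-- admissible tuples are spanned by monomials -/
theorem adm_span {B : TP L n c} (hB : Adm d B) :
    B ∈ Submodule.span L (Set.range (mu L : TI n c d → TP L n c)) := by
  classical
  have h1 : B = ∑ m, ∑ I ∈ (B m).support, coeff I (B m) •
      (Pi.single m (monomial I 1) : TP L n c) := by
    funext m'
    rw [Finset.sum_apply, Finset.sum_eq_single m']
    · rw [Finset.sum_apply]
      conv_lhs => rw [(B m').as_sum]
      refine Finset.sum_congr rfl fun I _ => ?_
      rw [Pi.smul_apply, Pi.single_eq_same, smul_monomial, smul_eq_mul, mul_one]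
    · intro m _ hm
      rw [Finset.sum_apply]
      refine Finset.sum_eq_zero fun I _ => ?_
      rw [Pi.smul_apply, Pi.single_eq_of_ne (Ne.symm hm), smul_zero]
    · intro h; exact absurd (Finset.mem_univ _) h
  rw [h1]
  refine Submodule.sum_mem _ fun m _ => Submodule.sum_mem _ fun I hI => ?_
  refine Submodule.smul_mem _ _ (Submodule.subset_span ?_)
  exact ⟨⟨(m, I), hB m I (mem_support_iff.1 hI)⟩, rfl⟩

theorem mu_adm (a : TI n c d) : Adm d (mu L a) := (IT.single (L := L) a.2).1

/-- the columns with one slot separated -/
theorem col_update {e : ℕ} (A : Fin e → TP L n c) (i i' : Fin e → Fin (n + 1)) (s : Fin e)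
    (B : TP L n c) :
    colU D x (colE D x j0 (Function.update A s B) i i') j0 =
      Function.update (Function.update (colU D x (colE D x j0 A i i') j0)
        (Sum.inl (Sum.inr (Sum.inl s))) (VL D x (lf x j0 (i s)) B))
        (Sum.inl (Sum.inr (Sum.inr s))) (VL D x (lf x j0 (i' s)) B) := by
  classical
  funext k
  rcases k with ((a | (j | j)) | m)
  · rw [Function.update_of_ne (by simp), Function.update_of_ne (by simp)]
    rfl
  · rw [Function.update_of_ne (by simp)]
    by_cases h : j = s
    · subst h
      rw [Function.update_self]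
      simp only [colU, colE, Sum.elim_inl, Sum.elim_inr, Function.update_self]
      rfl
    · rw [Function.update_of_ne (by simpa using h)]
      simp only [colU, colE, Sum.elim_inl, Sum.elim_inr, Function.update_of_ne h]
  · by_cases h : j = s
    · subst h
      rw [Function.update_self]
      simp only [colU, colE, Sum.elim_inl, Sum.elim_inr, Function.update_self]
      rfl
    · rw [Function.update_of_ne (by simpa using h), Function.update_of_ne (by simp)]
      simp only [colU, colE, Sum.elim_inl, Sum.elim_inr, Function.update_of_ne h]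
  · rw [Function.update_of_ne (by simp), Function.update_of_ne (by simp)]
    rfl

/-- exchange of the two columns of the slot -/
theorem upd_comm {e : ℕ} (K : (Unit ⊕ (Fin e ⊕ Fin e)) ⊕ Fin c → Fin (n + 1) → L) (s : Fin e)
    (V V' : Fin (n + 1) → L) :
    Function.update (Function.update K (Sum.inl (Sum.inr (Sum.inl s))) V)
        (Sum.inl (Sum.inr (Sum.inr s))) V' =
      Function.update (Function.update K (Sum.inl (Sum.inr (Sum.inr s))) V')
        (Sum.inl (Sum.inr (Sum.inl s))) V :=
  Function.update_comm (by simp) _ _ _

/-- the bilinear form of the slot `s` -/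
noncomputable def bS {e : ℕ} (ε : (Unit ⊕ (Fin e ⊕ Fin e)) ⊕ Fin c ≃ Fin (n + 1))
    (A : Fin e → TP L n c) (i i' : Fin e → Fin (n + 1)) (s : Fin e) :
    TP L n c →ₗ[L] TP L n c →ₗ[L] L :=
  LinearMap.mk₂ L (fun B B' => detA ε (Function.update (Function.update
      (colU D x (colE D x j0 A i i') j0)
        (Sum.inl (Sum.inr (Sum.inl s))) (VL D x (lf x j0 (i s)) B))
        (Sum.inl (Sum.inr (Sum.inr s))) (VL D x (lf x j0 (i' s)) B')))
    (fun B1 B2 B' => by
      rw [map_add]
      simp only [upd_comm]
      rw [AlternatingMap.map_update_add])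
    (fun t B B' => by
      rw [map_smul]
      simp only [upd_comm]
      rw [AlternatingMap.map_update_smul])
    (fun B B1 B2 => by rw [map_add, AlternatingMap.map_update_add])
    (fun t B B' => by rw [map_smul, AlternatingMap.map_update_smul])

theorem TT_update {e : ℕ} (ε : (Unit ⊕ (Fin e ⊕ Fin e)) ⊕ Fin c ≃ Fin (n + 1))
    (A : Fin e → TP L n c) (i i' : Fin e → Fin (n + 1)) (s : Fin e) (B : TP L n c) :
    TT D x j0 ε (Function.update A s B) i i' = bS D x j0 ε A i i' s B B := by
  rw [TT_eq, col_update]
  rfl

/-- module REFINE: sums of two monomials are enough -/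
theorem refine_mu [CharZero L] {e : ℕ}
    (ε : (Unit ⊕ (Fin e ⊕ Fin e)) ⊕ Fin c ≃ Fin (n + 1)) (i i' : Fin e → Fin (n + 1))
    (A : Fin e → TP L n c) (hA : ∀ j, Adm d (A j)) (h : TT D x j0 ε A i i' ≠ 0) :
    ∃ a a' : Fin e → TI n c d, TT D x j0 ε (fun j => mu L (a j) + mu L (a' j)) i i' ≠ 0 := by
  classical
  have key : ∀ T : Finset (Fin e), ∃ A : Fin e → TP L n c, (∀ j, Adm d (A j)) ∧
      (∀ j ∈ T, ∃ a a' : TI n c d, A j = mu L a + mu L a') ∧ TT D x j0 ε A i i' ≠ 0 := by
    intro T
    induction T using Finset.induction_on with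
    | empty => exact ⟨A, hA, by simp, h⟩
    | insert s T hs ih =>
      obtain ⟨A', hA', hT, hne⟩ := ih
      have h1 : ∃ a a' : TI n c d, bS D x j0 ε A' i i' s (mu L a + mu L a')
          (mu L a + mu L a') ≠ 0 := by
        by_contra hcon
        push Not at hcon
        apply hne
        have h2 := TT_update D x j0 ε A' i i' s (A' s)
        rw [Function.update_eq_self] at h2
        rw [h2]
        exact bil_zero _ _ hcon (adm_span (hA' s))
      obtain ⟨a, a', h2⟩ := h1
      refine ⟨Function.update A' s (mu L a + mu L a'), ?_, ?_, by rwa [TT_update]⟩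
      · intro j
        by_cases hj : j = s
        · subst hj
          rw [Function.update_self]
          intro m I hI
          rw [Pi.add_apply, coeff_add] at hI
          by_cases h3 : coeff I ((mu L a : TP L n c) m) = 0
          · rw [h3, zero_add] at hI
            exact mu_adm a' m I hI
          · exact mu_adm a m I h3
        · rw [Function.update_of_ne hj]
          exact hA' j
      · intro j hj
        by_cases hj' : j = s
        · subst hj'
          exact ⟨a, a', Function.update_self _ _ _⟩
        · rw [Function.update_of_ne hj']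
          exact hT j ((Finset.mem_insert.1 hj).resolve_left hj')
  obtain ⟨A', -, hT, hne⟩ := key Finset.univ
  choose a a' haa using fun j => hT j (Finset.mem_univ j)
  refine ⟨a, a', ?_⟩
  have : (fun j => mu L (a j) + mu L (a' j)) = A' := by
    funext j
    rw [haa j]
  rwa [this]

end

end Pool.Agent.Edge.H19
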