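import Pool.Agent.Lib.MP_c7af3c_ag.LINES.H19.Htx2
import Pool.Agent.Lib.MP_c7af3c_ag.EDGE.H19.Badl3
import Pool.Agent.Lib.MP_c7af3c_ag.EDGE.H19.Refine
import Pool.Agent.Lib.MP_c7af3c_ag.EDGE.Iface

/-!
# MP_c7af3c_ag, project EDGE: module DICH
-/

set_option autoImplicit false

namespace Pool.Agent.Edge.H19

open MvPolynomial WithZero Pool.Agent.Gen Pool.Agent.Sharp Pool.Agent.Lines.H75
open Pool.Agent.Lines Pool.Agent.Lines.H19 Pool.Agent.Sharp.H54

theorem TT_ne_zero {L : Type} [Field L] {n c e : ℕ} {d : Fin c → ℕ} (D : DSys L n c d)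
    (x : Fin (n + 1) → L) (j0 : Fin (n + 1)) (hj0 : x j0 = 1) (h0 : ∀ m, eval x (D.F m) = 0)
    (ε : (Unit ⊕ (Fin e ⊕ Fin e)) ⊕ Fin c ≃ Fin (n + 1)) (A : Fin e → TP L n c)
    (hA : ∀ j, IT d (A j)) (i i' : Fin e → Fin (n + 1))
    (hli : LinearIndependent L (colE D x j0 A i i')) : TT D x j0 ε A i i' ≠ 0 := by
  have hc : Fintype.card (Unit ⊕ (Fin e ⊕ Fin e)) + c = n + 1 := by
    have := Fintype.card_congr ε
    rw [Fintype.card_sum, Fintype.card_fin, Fintype.card_fin] at this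
    exact this
  obtain ⟨μ, hμ, hdet⟩ := detU D x h0 (colE D x j0 A i i') hli (by
    rintro (_ | (j | j)) m
    · exact grad_x D x h0 m
    · exact grad_mulT D x h0 (hA j).1 (hom_lf x j0 _) (eval_lf x hj0 _) m
    · exact grad_mulT D x h0 (hA j).1 (hom_lf x j0 _) (eval_lf x hj0 _) m) hc hj0 ε
  have h1 := hdet j0
  rw [hj0, one_pow, mul_one] at h1
  unfold TT
  rw [h1]
  exact hμ

/-- Module DICH. -/
theorem dich : DichStatement := by
  intro n c e d he hd h1 h2 hM ε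
  obtain ⟨M, hM1, hM2⟩ := hM
  refine ⟨((∑ m, d m) + 1) * (4 * n + 2) + 1, ?_⟩
  intro L _ _ D hcomm x j0 hj0 h0 hno S hS B hB
  have htn := tot_nonneg S B
  have hbig : (2 * n + 2 : ℤ) * tot S B ≤
      ((∑ m, d m : ℕ) + 1) * (4 * n + 2) * tot S B + tot S B := by
    have k1 : (2 * n + 2 : ℤ) ≤ ((∑ m, d m : ℕ) + 1) * (4 * n + 2) + 1 := by
      have : (0 : ℤ) ≤ ((∑ m, d m : ℕ) : ℤ) := by positivity
      have : (0 : ℤ) ≤ (n : ℤ) := by positivity
      have h4 : (1 : ℤ) ≤ n := by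
        have : 1 ≤ n := by omega
        exact_mod_cast this
      nlinarith
    have := mul_le_mul_of_nonneg_right k1 htn
    linarith
  -- a line of bounded height
  have hline : ∀ y, LinearIndependent L ![x, y] → hL S x y ≤ (4 * n + 2) * tot S B →
      S.ht x ≤ ((∑ m, d m : ℕ) + 1) * (4 * n + 2) * tot S B + tot S B := by
    intro y hxy hL1
    obtain ⟨m, hm⟩ := hno y hxy
    have hroot := root S hS D B hB hxy hj0 m (h0 m) hm
    have hdm : ((d m : ℕ) : ℤ) ≤ ((∑ m, d m : ℕ) : ℤ) := by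
      exact_mod_cast Finset.single_le_sum (f := d) (fun _ _ => Nat.zero_le _)
        (Finset.mem_univ m)
    have hnn := hL_nonneg x y S hS hxy
    have k2 : ((d m : ℤ) + 1) * hL S x y ≤
        (((∑ m, d m : ℕ) : ℤ) + 1) * ((4 * n + 2) * tot S B) := by
      calc ((d m : ℤ) + 1) * hL S x y ≤ (((∑ m, d m : ℕ) : ℤ) + 1) * hL S x y :=
            mul_le_mul_of_nonneg_right (by linarith) hnn
        _ ≤ _ := mul_le_mul_of_nonneg_left hL1 (by positivity)
    refine hroot.trans ?_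
    rw [mul_assoc]
    linarith
  have hconv : ((∑ m, d m : ℕ) + 1) * (4 * n + 2) * tot S B + tot S B =
      ((((∑ m, d m) + 1) * (4 * n + 2) + 1 : ℕ) : ℤ) * tot S B := by
    push_cast
    ring
  rcases badl3 (D := D) hj0 h0 e he (by omega) (by omega) S hS B hB with
    h | ⟨y, hxy, hLy⟩ | ⟨y, hxy, -, hE⟩ | ⟨hW, A, i, i', hA, hli⟩
  · left
    rw [← hconv]
    exact h.trans hbig
  · left
    rw [← hconv]
    refine hline y hxy (hLy.trans (mul_le_mul_of_nonneg_right ?_ htn))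
    have : (0 : ℤ) ≤ (n : ℤ) := by positivity
    linarith
  · left
    rw [← hconv]
    have hSL := H75.lvar L n c d D hcomm x y hxy h0 (e - 1) (by omega) (by omega)
    have h4 := four L n c d D x y hxy
    obtain ⟨q, hq⟩ := Nat.exists_eq_add_of_le h4
    exact hline y hxy (htlr D x y hxy q hq M hM1 (by omega) (hM2 q · (by omega)) S hS B hB)
  · right
    obtain ⟨a, a', h⟩ := refine_mu D x j0 ε i i' A (fun j => (hA j).1)
      (TT_ne_zero D x j0 hj0 h0 ε A hA i i' hli)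
    exact ⟨hW, a, a', i, i', h⟩

end Pool.Agent.Edge.H19
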