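import Pool.Agent.Lib.MP_c7af3c_ag.EDGE.Iface

/-!
# MP_c7af3c_ag, project EDGE: module ASM
-/

set_option autoImplicit false

namespace Pool.Agent.Edge.H19

open MvPolynomial WithZero Pool.Agent.Gen Pool.Agent.Sharp Pool.Agent.Lines.H75

section res

variable {Ω : Type} [Field Ω] {n : ℕ} (P : Fin 3 → Fin (n + 1) → Ω)

theorem resP_X (f : Fin (n + 1)) : resP P (X f) = ∑ i, C (P i f) * X i := by
  unfold resP
  rw [aeval_X]

theorem resP_C (a : Ω) : resP P (C a) = C a := by
  unfold resP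
  rw [aeval_C]
  rfl

theorem form_hom (u : Fin 3 → Ω) :
    (∑ i, C (u i) * X i : MvPolynomial (Fin 3) Ω).IsHomogeneous 1 := by
  refine IsHomogeneous.sum _ _ _ fun i _ => ?_
  simpa using (isHomogeneous_C _ (u i)).mul (isHomogeneous_X Ω i)

theorem resP_hom {G : MvPolynomial (Fin (n + 1)) Ω} {r : ℕ} (hG : G.IsHomogeneous r) :
    (resP P G).IsHomogeneous r := by
  unfold resP
  have := hG.aeval (fun f => ∑ i, C (P i f) * X i) (n := 1) (fun f => form_hom _)
  rwa [one_mul] at this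

theorem eval_resP (z : Fin 3 → Ω) (G : MvPolynomial (Fin (n + 1)) Ω) :
    eval z (resP P G) = eval (fun f => ∑ i, P i f * z i) G := by
  have h : (eval z).comp (resP P).toRingHom = eval (fun f => ∑ i, P i f * z i) := by
    refine MvPolynomial.ringHom_ext (fun a => ?_) fun f => ?_
    · change eval z (resP P (C a)) = _
      rw [resP_C, eval_C, eval_C]
    · change eval z (resP P (X f)) = _
      rw [resP_X, map_sum, eval_X]
      exact Finset.sum_congr rfl fun i _ => by rw [map_mul, eval_C, eval_X]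
  exact congrArg (fun φ : MvPolynomial (Fin (n + 1)) Ω →+* Ω => φ G) h

/-- coefficients in a subfield -/
theorem mem_kk (k : Subfield Ω) {σ : Type} (G : MvPolynomial σ Ω) :
    G ∈ (MvPolynomial.map (σ := σ) k.subtype).range ↔ ∀ I, coeff I G ∈ k := by
  constructor
  · rintro ⟨g, rfl⟩ I
    rw [coeff_map]
    exact (coeff I g).2
  · intro h
    refine (mem_range_map_iff_coeffs_subset (f := k.subtype)).2 ?_
    intro a ha
    obtain ⟨I, -, rfl⟩ := (mem_coeffs_iff).1 ha
    exact ⟨⟨_, h I⟩, rfl⟩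

theorem resP_mem (k : Subfield Ω) (hP : ∀ i f, P i f ∈ k) {G : MvPolynomial (Fin (n + 1)) Ω}
    (hG : ∀ I, coeff I G ∈ k) : ∀ I, coeff I (resP P G) ∈ k := by
  rw [← mem_kk]
  have hC : ∀ a ∈ k, (C a : MvPolynomial (Fin 3) Ω) ∈
      (MvPolynomial.map (σ := Fin 3) k.subtype).range := fun a ha => by
    exact ⟨C ⟨a, ha⟩, by rw [map_C]; rfl⟩
  have hX : ∀ i, (X i : MvPolynomial (Fin 3) Ω) ∈
      (MvPolynomial.map (σ := Fin 3) k.subtype).range := fun i => ⟨X i, by rw [map_X]⟩
  rw [G.as_sum, map_sum]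
  refine Subring.sum_mem _ fun I _ => ?_
  have h1 : (monomial I (coeff I G) : MvPolynomial (Fin (n + 1)) Ω) =
      C (coeff I G) * ∏ f, X f ^ I f := by
    rw [monomial_eq, Finsupp.prod_fintype _ _ fun _ => pow_zero _]
  rw [h1, map_mul, map_prod, resP_C]
  refine Subring.mul_mem _ (hC _ (hG I)) (Subring.prod_mem _ fun f _ => ?_)
  rw [map_pow, resP_X]
  exact Subring.pow_mem _ (Subring.sum_mem _ fun i _ =>
    Subring.mul_mem _ (hC _ (hP i f)) (hX i)) _

end res

/-- numerics for one hypersurface -/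
theorem num_one (e : ℕ) (he : 1 ≤ e) : ∃ M : ℕ, (∀ _m : Fin 1, 3 * e + 2 ≤ M) ∧ ∀ q r,
    q + 1 ≤ e → r + 2 * (2 * e + 1) = 1 + ∑ _m : Fin 1, (3 * e + 2) + q + 2 →
      (2 * e + 1) + 2 + q + r * M ≤ ∑ _m : Fin 1, (3 * e + 2) * (3 * e + 2 + 1) / 2 := by
  refine ⟨3 * e + 2, fun _ => le_rfl, fun q r hq hr => ?_⟩
  simp only [Finset.univ_unique, Finset.sum_const, Finset.card_singleton, smul_eq_mul, one_mul]
    at hr ⊢
  have hr2 : r ≤ 2 := by omega
  rw [Nat.le_div_iff_mul_le (by norm_num)]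
  interval_cases r <;> nlinarith

/-- the form `B` vanishes at the point -/
theorem evalB {Ω : Type} [Field Ω] [CharZero Ω] (k : Subfield Ω) {e : ℕ}
    (D : DSys Ω (2 * e + 1) 1 fun _ => 3 * e + 2) (x : Fin (2 * e + 1 + 1) → Ω)
    (j0 : Fin (2 * e + 1 + 1)) (ε : (Unit ⊕ (Fin e ⊕ Fin e)) ⊕ Fin 1 ≃ Fin (2 * e + 1 + 1))
    (hNL : NlStatement) (hE : EdgeP k D x j0 e ε)
    (t : Fin 3 → Fin (2 * e + 1 + 1)) (P : Fin 3 → Fin (2 * e + 1 + 1) → Ω)
    (hP : PlaneP k D x j0 e ε t P) (B : MvPolynomial (Fin 3) Ω) (hB : B.IsHomogeneous (3 * e))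
    (hBk : ∀ I, coeff I B ∈ k)
    (hV : ∀ (i : Fin 2) (j : Fin 3), D.V x 0
        ((X (t i.succ) - C (x (t i.succ)) * X (t 0)) * rename t (X j * B)) = 0) :
    eval (fun i => x (t i)) B = 0 := by
  classical
  set G : TP Ω (2 * e + 1) 1 := fun _ => rename t B with hG
  have hrB : (rename t B).IsHomogeneous (3 * e) := hB.rename_isHomogeneous
  set Vb : Fin 3 → Fin 3 → Fin (2 * e + 1 + 1) → Ω := fun a b =>
    D.V x 0 (X (t a) * X (t b) * rename t B) with hVb
  have hVT : ∀ a b, VT D x (mulT G (X (t a) * X (t b))) = Vb a b := by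
    intro a b
    rw [VT_apply, Fin.sum_univ_one, hVb]
    simp only [mulT, hG]
    exact congrArg (D.V x 0) (mul_comm _ _)
  have hx0 : x (t 0) = 1 := by rw [hP.t0]; exact hE.hj0
  have h1 : ∀ (i : Fin 2) (j : Fin 3), Vb i.succ j = x (t i.succ) • Vb 0 j := by
    intro i j
    have h2 := hV i j
    have h3 : (X (t i.succ) - C (x (t i.succ)) * X (t 0)) * rename t (X j * B) =
        X (t i.succ) * X (t j) * rename t B -
          x (t i.succ) • (X (t 0) * X (t j) * rename t B) := by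
      rw [map_mul, rename_X, smul_eq_C_mul]
      ring
    rw [h3, map_sub, map_smul, sub_eq_zero] at h2
    exact h2
  have h2 : ∀ a b, Vb a b = x (t a) • Vb 0 b := by
    intro a b
    refine Fin.cases ?_ (fun i => ?_) a
    · rw [hx0, one_smul]
    · exact h1 i b
  have hsym : ∀ a b, Vb a b = Vb b a := fun a b => by
    simp only [hVb]
    rw [mul_comm (X (t a)) (X (t b))]
  set s := Vb 0 0 with hs
  have hrel : ∀ a b, Vb a b = (x (t a) * x (t b)) • s := by
    intro a b
    rw [h2, hsym 0 b, h2 b 0, smul_smul]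
  have hplu : ∀ q r, plu x s q r ∈ k := by
    refine hE.sb t P hP.Pk hP.xP G (fun m I => ?_) (fun m I hI => ?_) s fun i j => ?_
    · simp only [hG]
      have h3 : rename t B ∈ (MvPolynomial.map (σ := Fin (2 * e + 1 + 1)) k.subtype).range := by
        obtain ⟨b, hb⟩ := (mem_kk k B).2 hBk
        exact ⟨rename t b, by rw [map_rename, hb]⟩
      exact (mem_kk k _).1 h3 I
    · have h3 := hrB (mem_support_iff.1 hI)
      rw [Finsupp.degree_eq_weight_one]
      change Finsupp.weight 1 I + 2 = _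
      rw [h3]
    · rw [hVT, hrel, sub_self]
      exact Submodule.zero_mem _
  have hzero : ∀ q r, plu x s q r = 0 := by
    by_contra hcon
    push Not at hcon
    obtain ⟨q, r, hqr⟩ := hcon
    refine hNL Ω k _ _ e _ D x j0 ε hE (fun f => plu x s f r / plu x s q r)
      (fun f => plu x s q f / plu x s q r) (fun f => k.div_mem (hplu _ _) (hplu _ _))
      (fun f => k.div_mem (hplu _ _) (hplu _ _)) (x q) (x r) ?_
    funext f
    simp only [Pi.add_apply, Pi.smul_apply, smul_eq_mul]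
    field_simp
    unfold plu
    ring
  have hsx : s = s j0 • x := by
    funext f
    have h3 := hzero j0 f
    unfold plu at h3
    rw [hE.hj0, one_mul] at h3
    rw [Pi.smul_apply, smul_eq_mul]
    linear_combination h3
  have h4 := grad_VT D x hE.h0 (mulT G (X (t 0) * X (t 0))) (fun m => by
    have h5 : (rename t B * (X (t 0) * X (t 0)) : MvPolynomial (Fin (2 * e + 1 + 1)) Ω).IsHomogeneous
        (3 * e + (1 + 1)) := hrB.mul ((isHomogeneous_X _ _).mul (isHomogeneous_X _ _))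
    exact h5) 0
  rw [hVT 0 0] at h4
  change ∑ p, eval x (pderiv p (D.F 0)) * s p = _ at h4
  have h5 : ∑ p, eval x (pderiv p (D.F 0)) * s p = 0 := by
    rw [hsx]
    have h6 := grad_x D x hE.h0 0
    calc ∑ p, eval x (pderiv p (D.F 0)) * (s j0 • x) p
        = s j0 * ∑ p, eval x (pderiv p (D.F 0)) * x p := by
          rw [Finset.mul_sum]
          refine Finset.sum_congr rfl fun p _ => ?_
          rw [Pi.smul_apply, smul_eq_mul]
          ring
      _ = 0 := by rw [h6, mul_zero]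
  rw [h5] at h4
  have h6 : eval x (mulT G (X (t 0) * X (t 0)) 0) = eval (fun i => x (t i)) B := by
    simp only [mulT, hG]
    rw [map_mul, map_mul, eval_X, hx0, mul_one, mul_one, eval_rename]
    rfl
  rw [h6] at h4
  linear_combination h4

/-- Module ASM. -/
theorem asm : AsmStatement := by
  intro hD hT hS hU hNL hPL hOM hPLANE hNR hEX hBE hNOF hNSG hPAS e he j0
  by_contra hneg
  have ε : (Unit ⊕ (Fin e ⊕ Fin e)) ⊕ Fin 1 ≃ Fin (2 * e + 1 + 1) := by
    refine Fintype.equivOfCardEq ?_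
    simp only [Fintype.card_sum, Fintype.card_fin, Fintype.card_unit]
    omega
  have hnum := num_one e he
  obtain ⟨Ω, _, _, k, D, x, hE⟩ := hU hD hT hS (2 * e + 1) 1 e (fun _ => 3 * e + 2) j0 he
    (fun _ => by omega) (by
      simp only [Finset.univ_unique, Finset.sum_const, Finset.card_singleton, smul_eq_mul,
        one_mul]
      omega) (by omega) hnum ε hneg
  obtain ⟨t, P, hP⟩ := hPLANE hNL hPL hOM Ω k _ _ e _ D x j0 ε he (by omega) hE
  obtain ⟨Q, v, ω, hC, hv, hvF⟩ := hPAS hOM Ω k e D x j0 ε t P he hE hP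
  obtain ⟨A1, hA1, hω⟩ := hC.nz
  have hxP : (fun f => ∑ i, P i f * x (t i)) = x := funext fun f => (hP.xP f).symm
  rcases hNR Ω Q k e _ v ω he hC A1 hA1 hω with ⟨z, hzk, hz, hzf⟩ | hN
  · -- a singular point
    set z' : Fin (2 * e + 1 + 1) → Ω := fun f => ∑ i, P i f * z i with hz'
    have hne : z' ≠ 0 := by
      intro h
      apply hz
      funext j
      have h1 := congrFun h (t j)
      rw [hz'] at h1
      simp only [hP.Pt, ite_mul, one_mul, zero_mul, Finset.sum_ite_eq', Finset.mem_univ,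
        if_true] at h1
      exact h1
    obtain ⟨p, hp⟩ := hNSG Ω (2 * e + 1) (3 * e + 2) D z' (by omega) hne
    apply hp
    rw [hz', ← eval_resP]
    refine hzf _ ?_ (hvF 0 p) (hvF 1 p)
    exact resP_hom P (D.hom 0).pderiv
  · obtain ⟨B, hB0, hBh, hBk, hBv⟩ := hEX Ω Q k e _ v ω he hC A1 hA1 hω hN
    have hXB : ∀ j : Fin 3, (X j * B).IsHomogeneous (3 * e + 1) := fun j => by
      have := (isHomogeneous_X Ω j).mul hBh
      rwa [add_comm] at this
    have hBx : eval (fun i => x (t i)) B = 0 := by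
      refine evalB k D x j0 ε hNL hE t P hP B hBh hBk fun i j => ?_
      rw [← hv i _ (hXB j), hBv]
      rfl
    have hf0 : resP P (D.F 0) ≠ 0 := by
      have := hNOF Ω e D t P he hP.inj hP.Pt 0 0 2 (3 * e) (isHomogeneous_zero _ _ _)
        (isHomogeneous_zero _ _ _) (by omega) le_rfl (by omega)
      rwa [mul_zero] at this
    have hfx : eval (fun i => x (t i)) (resP P (D.F 0)) = 0 := by
      rw [eval_resP, hxP]
      exact hE.h0 0
    have hy0 : x (t 0) = 1 := by rw [hP.t0]; exact hE.hj0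
    obtain ⟨g, h, δ, δ', hg, hh, hfgh, hδ, h2, hb⟩ := hBE Ω k (fun i => x (t i)) hE.kalg hy0
      hP.xk (resP P (D.F 0)) B (3 * e + 2) (3 * e) (resP_hom P (D.hom 0)) hBh
      (resP_mem P k hP.Pk fun I => hE.kF 0 I) hBk hf0 hB0 hfx hBx
    exact hNOF Ω e D t P he hP.inj hP.Pt g h δ δ' hg hh hδ h2 (by omega) hfgh

end Pool.Agent.Edge.H19
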